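import Pool.Agent.Lib.MP_b67a76_co.Relax

set_option autoImplicit false

namespace Pool.Agent.Results.MP_b67a76_co.RoundNonBinary

/-- `K` is a cocircuit of `M`: a minimal set meeting every basis. -/
def IsCocircuitSet {α : Type} (M : Matroid α) (K : Set α) : Prop :=
  Minimal (fun K : Set α => K ⊆ M.E ∧ ∀ B : Set α, M.IsBase B → (K ∩ B).Nonempty) K

/-- `M` is round: it has no two disjoint cocircuits. -/
def IsRound {α : Type} (M : Matroid α) : Prop :=
  ∀ K L : Set α, IsCocircuitSet M K → IsCocircuitSet M L → ¬ Disjoint K L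

/-- `N` is isomorphic to the `n`-point line `U_{2,n}`. -/
def IsLine {α : Type} (n : ℕ) (N : Matroid α) : Prop :=
  N.E.ncard = n ∧ ∀ I : Set α, I ⊆ N.E → (N.Indep I ↔ I.ncard ≤ 2)

/-- `N` is isomorphic to the projective geometry `PG(m-1,F)`: its elements correspond to the
points of the projective space of `F^m`, and independence is linear independence. -/
def IsProjectiveGeometry {α : Type} (F : Type) [Field F] (m : ℕ) (N : Matroid α) : Prop :=
  ∃ g : α → Projectivization F (Fin m → F), Set.BijOn g N.E Set.univ ∧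
    ∀ I : Set α, N.Indep I ↔ (I ⊆ N.E ∧ LinearIndependent F (fun x : I => (g (x : α)).rep))

/-- `M` is representable over `F`: it is the matroid of a family of vectors over `F`. -/
def IsRepresentable {α : Type} (F : Type) [Field F] (M : Matroid α) : Prop :=
  ∃ (n : ℕ) (v : α → Fin n → F), ∀ I : Set α,
    M.Indep I ↔ (I ⊆ M.E ∧ LinearIndependent F (fun x : I => v (x : α)))

open Pool.Agent.Lib.MP_b67a76_co in
/-- **Main theorem** (negative answer, for `q = 2`). For every positive integer `m` there is a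
finite round matroid that has a `PG(m-1,2)`-minor, has no `U_{2,5}`-minor, and is not
`GF(2)`-representable. -/
theorem result : ∀ m : ℕ, 0 < m →
    ∃ (α : Type) (M : Matroid α), M.E.Finite ∧ IsRound M ∧
      (∃ N : Matroid α, N.IsMinor M ∧ IsProjectiveGeometry (ZMod 2) m N) ∧
      (¬ ∃ N : Matroid α, N.IsMinor M ∧ IsLine (2 ^ 2 + 1) N) ∧
      ¬ IsRepresentable (ZMod 2) M := by
  intro m hm
  refine ⟨Gd m, relM m, Set.toFinite _, ?_, pg_minor m hm, no_U25 m, not_rep m hm⟩
  intro K L hK hL hdis
  have hsp : ∀ K : Set (Gd m), IsCocircuitSet (relM m) K → ¬ (relM m).Spanning Kᶜ := by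
    intro K hK hs
    obtain ⟨B, hB, hBK⟩ := hs.exists_isBase_subset
    obtain ⟨x, hxK, hxB⟩ := hK.prop.2 B hB
    exact hBK hxB hxK
  rcases round_relM m Kᶜ Lᶜ (by
    rw [← Set.compl_inter, Set.disjoint_iff_inter_eq_empty.1 hdis, Set.compl_empty]) with h | h
  · exact hsp K hK h
  · exact hsp L hL h

end Pool.Agent.Results.MP_b67a76_co.RoundNonBinary
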